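import Mathlib
import Pool.Agent.TEhr.Defs
import Pool.Agent.TEhr.Ineq
import Pool.Agent.TEhr.Thresh
import Pool.Agent.TEhr.Symm

/-!
# Coefficients of `q ^ a t ^ b` with `min a b ≤ 1`

For every threshold graph `G` with vertices labelled by weakly decreasing degree, the coefficients
of `q ^ a t ^ b`, `min a b ≤ 1`, in the difference of the `q,t`-Ehrhart polynomials of the flow
polytopes of the complete graph and of `G` are nonnegative.
-/

namespace Pool.Agent.Results.MP_68f7ae_co.OuterLayers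

open Finset MvPolynomial Pool.Agent.TEhr

variable {n : ℕ}

theorem flows_finite {G : SimpleGraph (Fin (n + 1))} {b : ℕ → ℕ} (hd : Desc G b) :
    {A : Fin (n + 1) → Fin (n + 1) → ℕ | IsFlow G A}.Finite := by
  have h1 : (SS b n (fun _ => 1)).Finite := by
    rw [SS_eq_FF hd]
    exact Finset.finite_toSet _
  exact Set.Finite.of_finite_image (h1.subset (bijOn hd).1.image_subset) (bijOn hd).2.1

theorem sw_Ehr {G : SimpleGraph (Fin (n + 1))} {b : ℕ → ℕ} (hd : Desc G b) :
    sw (Ehr G) = Ehr G := by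
  unfold Ehr
  have h := AddMonoidHom.map_finsum_mem (fun A => weight A)
    (sw : MvPolynomial (Fin 2) ℤ →ₐ[ℤ] MvPolynomial (Fin 2) ℤ).toAddMonoidHom (flows_finite hd)
  have h2 : ∀ A : Fin (n + 1) → Fin (n + 1) → ℕ,
      (sw : MvPolynomial (Fin 2) ℤ →ₐ[ℤ] MvPolynomial (Fin 2) ℤ).toAddMonoidHom (weight A)
        = weight A := fun A => sw_weight A
  simp only [h2] at h
  exact h

theorem coeff_symm {G : SimpleGraph (Fin (n + 1))} {b : ℕ → ℕ} (hd : Desc G b) (x y : ℕ) :
    (Ehr G).coeff (mon x y) = (Ehr G).coeff (mon y x) := by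
  rw [← coeff_sw (Ehr G) y x, sw_Ehr hd]

theorem result (n : ℕ) (G : SimpleGraph (Fin (n + 1))) (hG : IsThreshold G)
    (hs : DegreeSorted G) (a b : ℕ) (hab : min a b ≤ 1) :
    0 ≤ (Ehr (⊤ : SimpleGraph (Fin (n + 1))) - Ehr G).coeff
      (Finsupp.single 0 a + Finsupp.single 1 b) := by
  have hd := bk_desc hG hs
  have hK := top_desc (m := n)
  have f1 := coeff_formula hd (fun i j h1 h2 h3 h4 => bk_eq hG hs i j h1 h2 h3 h4)
  have f2 := coeff_formula hK (fun _ _ _ _ _ _ => rfl)
  have hb : ∀ i, 1 ≤ i → i ≤ n → bk G i ≤ i := fun i _ _ => bk_le G i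
  -- the case of a small exponent of `t`
  have key : ∀ x y : ℕ, y ≤ 1 →
      (Ehr G).coeff (mon x y) ≤ (Ehr (⊤ : SimpleGraph (Fin (n + 1)))).coeff (mon x y) := by
    intro x y hy
    rcases Nat.le_one_iff_eq_zero_or_eq_one.mp hy with rfl | rfl
    · rw [f1.1, f2.1]
      exact PP_le hb x
    · rw [f1.2, f2.2]
      exact TT_le hb x
  rw [coeff_sub, sub_nonneg]
  change (Ehr G).coeff (mon a b) ≤ (Ehr (⊤ : SimpleGraph (Fin (n + 1)))).coeff (mon a b)
  rcases min_le_iff.mp hab with h | h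
  · rw [coeff_symm hd a b, coeff_symm hK a b]
    exact key b a h
  · exact key a b h

end Pool.Agent.Results.MP_68f7ae_co.OuterLayers
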